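import Pool.Agent.C4F.StmtsM
import Pool.Agent.Helper81_LoadPoly.Lang

/-!
# Squad C4F, row A1: the generator of stage A1
-/

set_option autoImplicit false

namespace Pool.Agent.C4F.H89

open Pool.Agent.Helper53_CookLevin
open Pool.Agent.Helper53_Chan (Test)

/-- the row of a literal: `n` letters, the letter number `j` is `c` -/
def row (c : Lt) (n j : ℕ) : List Lt := (List.range n).map fun v => if v = j then c else Lt.tick

theorem pgen_row {m : ℕ} (c : Lt) {U T : (Fin m → List Lt) → List Lt} (hU : PGen m U)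
    (hT : PGen m T) : PGen m (fun ρ => row c (U ρ).length (T ρ).length) := by
  classical
  have hb : PGen (m + 1) (fun ρ : Fin (m + 1) → List Lt =>
      if (ρ 0).length = (T (ρ ∘ Fin.succ)).length then [c] else [Lt.tick]) :=
    Test.ite (Helper53_Chan.Test.lenEq (Helper53_Chan.PGen.var 0) (PGen.rename Fin.succ hT))
      (PGen.const [c]) (PGen.const [Lt.tick])
  refine Helper53_Chan.PGen.congr (Helper53_Chan.PGen.loopG hU
    (K := fun _ p ρ => if p.length = (T ρ).length then [c] else [Lt.tick]) (fun _ => hb))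
    (fun ρ => ?_)
  rw [scan_length _ (fun k => if k = (T ρ).length then [c] else [Lt.tick]) (fun q d => rfl)]
  unfold row
  rw [List.map_eq_flatMap]
  refine List.flatMap_congr (fun k _ => ?_)
  simp only [List.length_nil, Nat.zero_add]
  split_ifs <;> rfl

theorem pgen_takeWhile {m : ℕ} (P : Lt → Prop) [DecidablePred P] {F : (Fin m → List Lt) → List Lt}
    (hF : PGen m F) : PGen m (fun ρ => (F ρ).takeWhile P) :=
  Helper53_Chan.PGen.letG hF (K := fun w _ => w.takeWhile P)
    (Helper81_LoadPoly.PGen.takeWhile (0 : Fin (m + 1)) P)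

/-- sign letters -/
def sg (c : Lt) : Bool := decide (c = Lt.pos) || decide (c = Lt.neg)

/-- the rows of the letters of a word -/
def tb (u : List Lt) (v : List Lt) : List Lt :=
  Helper81_LoadPoly.scanS (fun c s => if sg c then row c u.length
    (s.takeWhile (fun d => d = Lt.tick)).length else []) v

theorem pgen_tb {m : ℕ} (i j : Fin m) : PGen m (fun ρ : Fin m → List Lt => tb (ρ i) (ρ j)) := by
  classical
  unfold tb
  have h : ∀ c : Lt, PGen (m + 1) (fun ρ : Fin (m + 1) → List Lt =>
      if sg c then row c (ρ i.succ).length ((ρ 0).takeWhile (fun d => d = Lt.tick)).length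
      else []) := by
    intro c
    by_cases hc : sg c = true
    · simp only [hc, if_true]
      exact pgen_row c (Helper53_Chan.PGen.var i.succ)
        (Helper81_LoadPoly.PGen.takeWhile (0 : Fin (m + 1)) (fun d => d = Lt.tick))
    · simp only [hc]
      exact PGen.const []
  exact Helper81_LoadPoly.PGen.loopS j _ h

/-- the word of a list of literals -/
def lw {n : ℕ} (L : List (Fin n × Bool)) : List Lt := L.flatMap encLit

/-- the letter of a sign -/
def sl (b : Bool) : Lt := if b then Lt.pos else Lt.neg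

theorem takeWhile_tick (j : ℕ) (L : List Lt) (hL : ∀ c M, L = c :: M → c ≠ Lt.tick) :
    (List.replicate j Lt.tick ++ L).takeWhile (fun d => d = Lt.tick) =
      List.replicate j Lt.tick := by
  induction j with
  | zero =>
    cases L with
    | nil => rfl
    | cons c M =>
      have := hL c M rfl
      simp [this]
  | succ j ih =>
    rw [List.replicate_succ, List.cons_append, List.takeWhile_cons_of_pos (by simp), ih]

theorem lw_head {n : ℕ} (L : List (Fin n × Bool)) : ∀ c M, lw L = c :: M → c ≠ Lt.tick := by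
  intro c M h
  cases L with
  | nil => simp [lw] at h
  | cons l L =>
    have h1 : lw (l :: L) = sl l.2 :: (List.replicate l.1 Lt.tick ++ lw L) := by
      simp [lw, encLit, sl]
    rw [h1] at h
    have h2 := (List.cons.inj h).1
    rw [← h2]
    unfold sl
    split_ifs <;> simp

theorem scanS_ticks (u : List Lt) (j : ℕ) (L : List Lt) :
    tb u (List.replicate j Lt.tick ++ L) = tb u L := by
  induction j with
  | zero => rfl
  | succ j ih =>
    rw [List.replicate_succ, List.cons_append]
    unfold tb at ih ⊢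
    rw [Helper81_LoadPoly.scanS, ih]
    simp [sg]

theorem tb_lw (u : List Lt) {n : ℕ} : ∀ L : List (Fin n × Bool),
    tb u (lw L) = L.flatMap (fun l => row (sl l.2) u.length l.1)
  | [] => by simp [lw, tb, Helper81_LoadPoly.scanS]
  | l :: L => by
    have h1 : lw (l :: L) = sl l.2 :: (List.replicate l.1 Lt.tick ++ lw L) := by
      simp [lw, encLit, sl]
    have h2 : sg (sl l.2) = true := by
      unfold sl
      split_ifs <;> simp [sg]
    have h3 : tb u (sl l.2 :: (List.replicate l.1 Lt.tick ++ lw L)) =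
        row (sl l.2) u.length l.1 ++ tb u (List.replicate l.1 Lt.tick ++ lw L) := by
      conv_lhs => unfold tb
      rw [Helper81_LoadPoly.scanS, if_pos h2, takeWhile_tick _ _ (lw_head L),
        List.length_replicate]
      rfl
    rw [h1, h3, scanS_ticks, tb_lw u L, List.flatMap_cons]

theorem cnt_lw {n : ℕ} : ∀ L : List (Fin n × Bool), Helper53_Chan.cnt sg (lw L) = L.length
  | [] => rfl
  | l :: L => by
    have h1 : lw (l :: L) = [sl l.2] ++ (List.replicate l.1 Lt.tick ++ lw L) := by
      simp [lw, encLit, sl]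
    have h2 : Helper53_Chan.cnt sg [sl l.2] = 1 := by
      unfold sl
      split_ifs <;> rfl
    have h3 : Helper53_Chan.cnt sg (List.replicate (l.1 : ℕ) Lt.tick) = 0 := by
      unfold Helper53_Chan.cnt
      rw [List.filter_eq_nil_iff.2]
      · rfl
      · intro a ha
        rw [List.eq_of_mem_replicate ha]
        simp [sg]
    rw [h1, Helper53_Chan.cnt_append, Helper53_Chan.cnt_append, h2, h3, cnt_lw L,
      List.length_cons]
    omega

/-- the literals of a formula -/
def lits (φ : CNF3) : List (Fin φ.n × Bool) := φ.clauses.flatMap fun c => [c 0, c 1, c 2]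

theorem rest_eq (φ : CNF3) :
    (φ.clauses.flatMap fun c => encLit (c 0) ++ (encLit (c 1) ++ encLit (c 2))) =
      lw (lits φ) := by
  unfold lw lits
  rw [List.flatMap_assoc]
  refine List.flatMap_congr (fun c _ => ?_)
  simp

theorem tab_eq (φ : CNF3) (u : List Lt) (hu : u.length = φ.n) :
    tb u (lw (lits φ)) = tab φ := by
  rw [tb_lw]
  unfold lits tab
  rw [List.flatMap_assoc]
  refine List.flatMap_congr (fun c _ => ?_)
  rw [hu]
  simp [List.finRange_succ, row, sl]

theorem length_lits (φ : CNF3) : (lits φ).length = 3 * φ.clauses.length := by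
  unfold lits
  rw [List.length_flatMap]
  simp [Nat.mul_comm]

/-- the part before the first bar -/
def pre (w : List Lt) : List Lt := w.takeWhile (fun c => c ≠ Lt.bar)

theorem pre_enc (φ : CNF3) : pre (encCNF φ) = List.replicate φ.n Lt.tick := by
  unfold pre encCNF
  generalize (φ.clauses.flatMap fun c => encLit (c 0) ++ (encLit (c 1) ++ encLit (c 2))) = v
  induction φ.n with
  | zero => simp
  | succ j ih =>
    rw [List.replicate_succ, List.cons_append, List.takeWhile_cons_of_pos (by simp), ih]

/-- the part after the first bar -/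
def pst (w : List Lt) : List Lt := w.drop (pre w ++ [Lt.bar]).length

theorem pst_enc (φ : CNF3) : pst (encCNF φ) = lw (lits φ) := by
  unfold pst
  rw [pre_enc, ← rest_eq]
  unfold encCNF
  generalize (φ.clauses.flatMap fun c => encLit (c 0) ++ (encLit (c 1) ++ encLit (c 2))) = v
  have e : List.replicate φ.n Lt.tick ++ Lt.bar :: v =
      (List.replicate φ.n Lt.tick ++ [Lt.bar]) ++ v := by simp
  rw [e]
  exact List.drop_left

/-- number of clauses -/
def nc (v : List Lt) : ℕ := Helper53_Chan.cnt sg v / 3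

/-- the stage -/
def st (q k : ℕ) (w : List Lt) : List Lt :=
  List.replicate q Lt.tick ++ Lt.bar :: (List.replicate k Lt.tick ++ Lt.bar ::
    (pre w ++ Lt.bar :: (List.replicate (nc (pst w)) Lt.tick ++ Lt.bar ::
      (tb (pre w) (pst w) ++ Lt.bar ::
    (List.replicate (wid q (nc (pst w))) Lt.tick ++ Lt.bar :: [Lt.bar])))))

theorem pgen_pre : PGen 1 (fun ρ : Fin 1 → List Lt => pre (ρ 0)) :=
  Helper81_LoadPoly.PGen.takeWhile (0 : Fin 1) (fun c => c ≠ Lt.bar)

theorem pgen_pst : PGen 1 (fun ρ : Fin 1 → List Lt => pst (ρ 0)) := by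
  unfold pst
  exact Helper53_Chan.PGen.dropF (Helper53_Chan.PGen.var 0)
    (PGen.append pgen_pre (PGen.const [Lt.bar]))

theorem pgen_tab : PGen 1 (fun ρ : Fin 1 → List Lt => tb (pre (ρ 0)) (pst (ρ 0))) := by
  have h1 : PGen 3 (fun ρ : Fin 3 → List Lt => tb (ρ 1) (ρ 0)) := pgen_tb 1 0
  have h2 : PGen 2 (fun ρ : Fin 2 → List Lt => tb (ρ 0) (pst (ρ 1))) :=
    Helper53_Chan.PGen.letG (F := fun ρ : Fin 2 → List Lt => pst (ρ 1))
      (PGen.rename (fun _ => (1 : Fin 2)) pgen_pst) (K := fun w ρ => tb (ρ 0) w) h1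
  exact Helper53_Chan.PGen.letG (F := fun ρ : Fin 1 → List Lt => pre (ρ 0))
      pgen_pre (K := fun w ρ => tb w (pst (ρ 0))) h2

theorem numF_nc (K : Kit) : NumF 1 (fun ρ : Fin 1 → List Lt => nc (pst (ρ 0))) := by
  unfold nc
  refine K.div 1 _ _ ?_ (K.cst 1 3)
  exact Helper53_Chan.PGen.cnt sg Lt.tick pgen_pst

theorem numF_wid (K : Kit) (q : ℕ) :
    NumF 1 (fun ρ : Fin 1 → List Lt => wid q (nc (pst (ρ 0)))) := by
  unfold wid
  exact K.add 1 _ _ (K.mul 1 _ _ (K.cst 1 3) (K.add 1 _ _ (K.div 1 _ _ (numF_nc K)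
    (K.cst 1 _)) (K.cst 1 1))) (K.cst 1 _)

theorem cons_app {m : ℕ} {F G : (Fin m → List Lt) → List Lt} (hF : PGen m F) (hG : PGen m G) :
    PGen m (fun ρ => F ρ ++ Lt.bar :: G ρ) :=
  PGen.append hF (PGen.append (PGen.const [Lt.bar]) hG)

theorem pgen_st (K : Kit) (q k : ℕ) : PGen 1 (fun ρ : Fin 1 → List Lt => st q k (ρ 0)) := by
  unfold st
  exact cons_app (PGen.const _) (cons_app (PGen.const _) (cons_app pgen_pre (cons_app (numF_nc K)
    (cons_app pgen_tab (cons_app (numF_wid K q) (PGen.const _))))))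

/-- A1 -/
theorem a1 (K : Kit) : A1Stmt := by
  intro q k
  refine ⟨st q k, pgen_st K q k, fun φ => ?_⟩
  have h1 : nc (pst (encCNF φ)) = φ.clauses.length := by
    unfold nc
    rw [pst_enc, cnt_lw, length_lits]
    omega
  have h2 : tb (pre (encCNF φ)) (pst (encCNF φ)) = tab φ := by
    rw [pst_enc, pre_enc]
    exact tab_eq φ _ (by simp)
  unfold st
  rw [h1, h2, pre_enc]
  unfold zs wd
  have h3 : en 0 = [Lt.bar] := by simp [en]
  rw [h3]
  rfl

end Pool.Agent.C4F.H89
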